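import Pool.Agent.Q81.Leroy3

/-!
# Complete monotonicity of Le Roy type Mittag-Leffler functions: a counterexample
-/

namespace Pool.Agent.Results.MP_b81f9a_an.LeRoyCounterexample

open Q81.Leroy

/-- the Le Roy type Mittag-Leffler function `∑ x^n / Γ(α n + β)^γ` at a real point -/
noncomputable def F (α β γ x : ℝ) : ℝ := ∑' n : ℕ, x ^ n / Real.Gamma (α * n + β) ^ γ

/-- complete monotonicity on `(0, ∞)` -/
def IsCM (f : ℝ → ℝ) : Prop :=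
  ContDiffOn ℝ (⊤ : ℕ∞) f (Set.Ioi 0) ∧
    ∀ (k : ℕ) (x : ℝ), 0 < x → 0 ≤ (-1) ^ k * iteratedDeriv k f x

/-- the condition `(C)` -/
def CondC (α β γ : ℝ) : Prop :=
  ∀ z : ℝ, 0 < z → z < 1 → z + γ * (z ^ (β - α) - z ^ β) ≤ 1

lemma F_eq : (fun x => F (1 / 20) (8 / 125) 2 (-x)) = gk aa 0 := by
  funext x
  unfold F gk
  refine tsum_congr fun n => ?_
  have g3 : 0 < Real.Gamma (1 / 20 * n + 8 / 125) := Real.Gamma_pos_of_pos (by positivity)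
  have hf : (0 : ℝ) < (n.factorial : ℝ) := by exact_mod_cast n.factorial_pos
  rw [Real.rpow_two, add_zero, aa]
  field_simp

lemma isCM : IsCM (fun x => F (1 / 20) (8 / 125) 2 (-x)) := by
  rw [F_eq]
  exact CM_aa

lemma not_condC : ¬ CondC (1 / 20) (8 / 125) 2 := by
  intro h
  have h1 := h ((1 / 4 : ℝ) ^ (20 : ℕ)) (by positivity) (by norm_num)
  have e1 : ((1 / 4 : ℝ) ^ (20 : ℕ)) ^ ((8 : ℝ) / 125 - 1 / 20) = (1 / 4 : ℝ) ^ ((7 : ℝ) / 25) := by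
    rw [← Real.rpow_natCast, ← Real.rpow_mul (by norm_num)]
    norm_num
  have e2 : ((1 / 4 : ℝ) ^ (20 : ℕ)) ^ ((8 : ℝ) / 125) = (1 / 4 : ℝ) ^ ((7 : ℝ) / 25) * (1 / 4) := by
    rw [← Real.rpow_natCast, ← Real.rpow_mul (by norm_num)]
    rw [show (((20 : ℕ) : ℝ) * (8 / 125)) = 7 / 25 + 1 by norm_num, Real.rpow_add (by norm_num),
      Real.rpow_one]
  rw [e1, e2] at h1
  have h2 : (2 / 3 : ℝ) < (1 / 4 : ℝ) ^ ((7 : ℝ) / 25) := by
    have h3 : ((2 / 3 : ℝ) ^ (25 : ℕ)) ^ ((1 : ℝ) / 25) < ((1 / 4 : ℝ) ^ (7 : ℕ)) ^ ((1 : ℝ) / 25) :=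
      Real.rpow_lt_rpow (by positivity) (by norm_num) (by norm_num)
    have e3 : ((2 / 3 : ℝ) ^ (25 : ℕ)) ^ ((1 : ℝ) / 25) = 2 / 3 := by
      rw [← Real.rpow_natCast, ← Real.rpow_mul (by norm_num)]
      norm_num
    have e4 : ((1 / 4 : ℝ) ^ (7 : ℕ)) ^ ((1 : ℝ) / 25) = (1 / 4 : ℝ) ^ ((7 : ℝ) / 25) := by
      rw [← Real.rpow_natCast, ← Real.rpow_mul (by norm_num)]
      norm_num
    rw [e3, e4] at h3
    exact h3
  have h4 : (0 : ℝ) < (1 / 4) ^ (20 : ℕ) := by positivity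
  linarith

/-- The Le Roy type Mittag-Leffler function with `α = 1/20`, `β = 8/125`, `γ = 2` is completely
monotone, although the condition `(C)` fails. -/
theorem result :
    (IsCM (fun x => F (1 / 20) (8 / 125) 2 (-x)) ∧ ¬ CondC (1 / 20) (8 / 125) 2) ∧
    ¬ ∀ α β γ : ℝ, 0 < α → 0 < β → 0 < γ → (IsCM (fun x => F α β γ (-x)) ↔ CondC α β γ) :=
  ⟨⟨isCM, not_condC⟩, fun h =>
    not_condC ((h (1 / 20) (8 / 125) 2 (by norm_num) (by norm_num) (by norm_num)).1 isCM)⟩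

end Pool.Agent.Results.MP_b81f9a_an.LeRoyCounterexample
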